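import Pool.Agent.TH499.Univ.Rep

/-!
# A finite graph `Y` whose class of intersection graphs is universal

Definitions used in the statement, all in `Pool/Agent/TH499/Univ/Defs.lean`:
`SubV`, `Next`, `subdivision`, `InClass`, `Universal`.
-/

set_option autoImplicit false

namespace Pool.Agent.Results.MP_f0827e_co.UniversalClass

open Pool.Agent.TH499.Univ

/-- There is a finite graph `Y` such that every finite group is isomorphic to the automorphism
group of a finite graph that is the intersection graph of connected subgraphs of a subdivision
of `Y`. -/
theorem result : ∃ (m : ℕ) (Y : SimpleGraph (Fin m)), Universal Y :=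
  ⟨9, Y9, universal_Y9⟩

end Pool.Agent.Results.MP_f0827e_co.UniversalClass
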